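import Pool.Agent.Helper12.GM.LibF

/-!
# Module IRR: the matrices of a cocompact Fuchsian representation have no common eigenvector
-/

open scoped ENNReal UpperHalfPlane MatrixGroups Topology
open UpperHalfPlane Real Filter

namespace Pool.Agent.Helper12.GM

theorem irr_norm (A : SL(2, ℝ)) : 2 * Real.cosh (dist (I : ℍ) (A • (I : ℍ))) = nsq A.1 := by
  rw [UpperHalfPlane.cosh_dist', sl_im, sl_re]
  have hdet := A.det_coe
  rw [Matrix.det_fin_two] at hdet
  have hpos := sl_den_pos A I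
  rw [UpperHalfPlane.I_im, UpperHalfPlane.I_re] at *
  unfold nsq
  set a := A.1 0 0
  set b := A.1 0 1
  set c := A.1 1 0
  set d := A.1 1 1
  have hD : d ^ 2 + c ^ 2 ≠ 0 := by
    have : (c * 0 + d) ^ 2 + (c * 1) ^ 2 = d ^ 2 + c ^ 2 := by ring
    rw [this] at hpos
    exact hpos.ne'
  simp only [mul_zero, zero_add, mul_one, zero_sub, one_pow, ne_eq, OfNat.ofNat_ne_zero,
    not_false_eq_true, zero_pow]
  have e : a * d - b * c = 1 := hdet
  have e2 : (a * d - b * c) ^ 2 = 1 := by rw [e]; norm_num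
  field_simp
  ring_nf
  ring_nf at e2
  linear_combination -e2

/-- `M g` has determinant one -/
theorem irr_det (A : SL(2, ℝ)) : A.1 0 0 * A.1 1 1 - A.1 0 1 * A.1 1 0 = 1 := by
  have h := A.det_coe
  rwa [Matrix.det_fin_two] at h

theorem irr_ne (v : Fin 2 → ℝ) (hv : v ≠ 0) : ∃ i, v i ≠ 0 := by
  by_contra hc
  push Not at hc
  exact hv (funext hc)

/-- an eigenvector with eigenvalue `1` or `-1` forces `|trace| = 2` -/
theorem irr_trace (A : SL(2, ℝ)) (v : Fin 2 → ℝ) (hv : v ≠ 0) (a : ℝ)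
    (h : A.1.mulVec v = a • v) : A.1.trace * a = a ^ 2 + 1 := by
  have hd := irr_det A
  have h0 := congrFun h 0
  have h1 := congrFun h 1
  simp only [Matrix.mulVec, dotProduct, Fin.sum_univ_two, Pi.smul_apply, smul_eq_mul] at h0 h1
  rw [Matrix.trace_fin_two]
  have key : ∀ i, v i * ((A.1 0 0 + A.1 1 1) * a - (a ^ 2 + 1)) = 0 := by
    intro i
    fin_cases i
    · simp only [Fin.zero_eta]
      linear_combination (a - A.1 1 1) * h0 + A.1 0 1 * h1 + v 0 * hd
    · simp only [Fin.mk_one]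
      linear_combination (a - A.1 0 0) * h1 + A.1 1 0 * h0 + v 1 * hd
  obtain ⟨i, hi⟩ := irr_ne v hv
  have := (mul_eq_zero.mp (key i)).resolve_left hi
  linarith

theorem irr_nsq_mul (A B : Matrix (Fin 2) (Fin 2) ℝ) : nsq (A * B) ≤ nsq A * nsq B := by
  unfold nsq
  simp only [Matrix.mul_apply, Fin.sum_univ_two]
  nlinarith [sq_nonneg (A 0 0 * B 1 0 - A 0 1 * B 0 0), sq_nonneg (A 0 0 * B 1 1 - A 0 1 * B 0 1),
    sq_nonneg (A 1 0 * B 1 0 - A 1 1 * B 0 0), sq_nonneg (A 1 0 * B 1 1 - A 1 1 * B 0 1)]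

theorem irr_nsq_nonneg (A : Matrix (Fin 2) (Fin 2) ℝ) : 0 ≤ nsq A := by
  unfold nsq; positivity

theorem irr_inv (P : SL(2, ℝ)) : (P⁻¹).1 = !![P.1 1 1, -P.1 0 1; -P.1 1 0, P.1 0 0] := by
  have := Matrix.SpecialLinearGroup.coe_inv P
  rw [Matrix.adjugate_fin_two] at this
  exact this

/-- matrix with first column `v` -/
theorem irr_P (v : Fin 2 → ℝ) (hv : v ≠ 0) : ∃ P : SL(2, ℝ), P.1 0 0 = v 0 ∧ P.1 1 0 = v 1 := by
  have hr : 0 < v 0 ^ 2 + v 1 ^ 2 := by
    obtain ⟨i, hi⟩ := irr_ne v hv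
    fin_cases i
    · have : 0 < v 0 ^ 2 := by
        have : v 0 ≠ 0 := hi
        positivity
      nlinarith [sq_nonneg (v 1)]
    · have : 0 < v 1 ^ 2 := by
        have : v 1 ≠ 0 := hi
        positivity
      nlinarith [sq_nonneg (v 0)]
  refine ⟨⟨!![v 0, -v 1 / (v 0 ^ 2 + v 1 ^ 2); v 1, v 0 / (v 0 ^ 2 + v 1 ^ 2)], ?_⟩, rfl, rfl⟩
  rw [Matrix.det_fin_two_of]
  field_simp
  ring

/-- conjugated matrix is upper triangular -/
theorem irr_conj (P A : SL(2, ℝ)) (v : Fin 2 → ℝ) (h0 : P.1 0 0 = v 0) (h1 : P.1 1 0 = v 1)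
    (a : ℝ) (h : A.1.mulVec v = a • v) :
    (P⁻¹ * A * P).1 0 0 = a ∧ (P⁻¹ * A * P).1 1 0 = 0 := by
  have e0 := congrFun h 0
  have e1 := congrFun h 1
  simp only [Matrix.mulVec, dotProduct, Fin.sum_univ_two, Pi.smul_apply, smul_eq_mul] at e0 e1
  have hd := irr_det P
  rw [← h0, ← h1] at e0 e1
  rw [Matrix.SpecialLinearGroup.coe_mul, Matrix.SpecialLinearGroup.coe_mul, irr_inv]
  simp only [Matrix.mul_apply, Fin.sum_univ_two]
  simp
  constructor
  · linear_combination P.1 1 1 * e0 - P.1 0 1 * e1 + a * hd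
  · linear_combination P.1 0 0 * e1 - P.1 1 0 * e0

/-- translation matrix -/
def irr_U (n : ℝ) : SL(2, ℝ) := ⟨!![1, n; 0, 1], by rw [Matrix.det_fin_two_of]; ring⟩

theorem st_IRR : ST_IRR := by
  intro Γ _ X hX
  obtain ⟨v, hv, H⟩ := hX
  choose a ha using H
  have ane : ∀ g, a g ≠ 0 := fun g h => by
    have := irr_trace _ v hv _ (ha g)
    rw [h] at this
    norm_num at this
  have amul : ∀ g h, |a (g * h)| = |a g| * |a h| := by
    intro g h
    obtain ⟨i, hi⟩ := irr_ne v hv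
    have e1 : ((X.M g * X.M h : SL(2, ℝ))).1.mulVec v = (a g * a h) • v := by
      rw [Matrix.SpecialLinearGroup.coe_mul, ← Matrix.mulVec_mulVec, ha h, Matrix.mulVec_smul,
        ha g, smul_smul, mul_comm]
    rw [← abs_mul]
    rcases X.mul' g h with h1 | h1
    · have h2 := ha (g * h)
      rw [h1, e1] at h2
      have h3 := congrFun h2 i
      simp only [Pi.smul_apply, smul_eq_mul] at h3
      rw [mul_right_cancel₀ hi h3]
    · have h2 := ha (g * h)
      rw [h1, Matrix.SpecialLinearGroup.coe_neg, Matrix.neg_mulVec, e1] at h2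
      have h3 := congrFun h2 i
      simp only [Pi.smul_apply, smul_eq_mul, Pi.neg_apply] at h3
      rw [← neg_mul] at h3
      rw [← mul_right_cancel₀ hi h3, abs_neg]
  have apos : ∀ g, 0 < |a g| := fun g => abs_pos.mpr (ane g)
  have aone : |a 1| = 1 := by
    have := amul 1 1
    rw [mul_one] at this
    exact (mul_eq_left₀ (apos 1).ne').mp this.symm
  have ainv : ∀ g, |a g| * |a g⁻¹| = 1 := fun g => by rw [← amul, mul_inv_cancel, aone]
  have comm : ∀ g h : Γ, g * h = h * g := by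
    intro g h
    by_contra hne
    have hk : g * h * g⁻¹ * h⁻¹ ≠ 1 := by
      intro hk
      apply hne
      have : g * h * g⁻¹ = h := by rwa [mul_inv_eq_one] at hk
      rw [mul_inv_eq_iff_eq_mul] at this
      exact this
    have h1 := X.hyp _ hk
    have h2 : |a (g * h * g⁻¹ * h⁻¹)| = 1 := by
      rw [amul, amul, amul]
      have := ainv g
      have := ainv h
      calc |a g| * |a h| * |a g⁻¹| * |a h⁻¹| = (|a g| * |a g⁻¹|) * (|a h| * |a h⁻¹|) := by ring
        _ = 1 := by rw [ainv, ainv, one_mul]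
    have h3 := irr_trace _ v hv _ (ha (g * h * g⁻¹ * h⁻¹))
    have h4 : a (g * h * g⁻¹ * h⁻¹) ^ 2 = 1 := by rw [← sq_abs, h2, one_pow]
    rw [h4] at h3
    have h5 := congrArg abs h3
    rw [abs_mul, h2, mul_one] at h5
    rw [h5] at h1
    norm_num at h1
  obtain ⟨P, hP0, hP1⟩ := irr_P v hv
  have hN := fun g => irr_conj P (X.M g) v hP0 hP1 (a g) (ha g)
  have hN11 : ∀ g, a g * (P⁻¹ * X.M g * P).1 1 1 = 1 := by
    intro g
    have := irr_det (P⁻¹ * X.M g * P)
    rw [(hN g).1, (hN g).2, mul_zero, sub_zero] at this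
    exact this
  have hτ : ∃ τ : ℝ, ∀ g, a g * (P⁻¹ * X.M g * P).1 0 1 = τ * ((a g) ^ 2 - 1) := by
    by_cases hex : ∃ g : Γ, g ≠ 1
    · obtain ⟨g0, hg0⟩ := hex
      have h1 := X.hyp g0 hg0
      have hne : a g0 ^ 2 - 1 ≠ 0 := by
        intro h
        have h2 : a g0 ^ 2 = 1 := by linarith
        have h3 := irr_trace _ v hv _ (ha g0)
        rw [h2] at h3
        have h5 := congrArg abs h3
        have h6 : |a g0| = 1 := by
          rw [← sq_eq_sq₀ (abs_nonneg _) zero_le_one, sq_abs, h2, one_pow]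
        rw [abs_mul, h6, mul_one] at h5
        rw [h5] at h1
        norm_num at h1
      refine ⟨a g0 * (P⁻¹ * X.M g0 * P).1 0 1 / (a g0 ^ 2 - 1), fun g => ?_⟩
      have hc : X.M g0 * X.M g = X.M g * X.M g0 ∨ X.M g0 * X.M g = -(X.M g * X.M g0) := by
        rcases X.mul' g0 g with h2 | h2 <;> rcases X.mul' g g0 with h3 | h3 <;>
          rw [comm g0 g, h3] at h2
        · exact Or.inl h2.symm
        · exact Or.inr h2.symm
        · right; rw [h2, neg_neg]
        · left; exact (neg_injective h2).symm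
      set A := P⁻¹ * X.M g0 * P with hA
      set B := P⁻¹ * X.M g * P with hB
      have eAB : A * B = P⁻¹ * (X.M g0 * X.M g) * P := by rw [hA, hB]; group
      have eBA : B * A = P⁻¹ * (X.M g * X.M g0) * P := by rw [hA, hB]; group
      have hcc : A * B = B * A ∨ A * B = -(B * A) := by
        rcases hc with h | h
        · left; rw [eAB, eBA, h]
        · right; rw [eAB, eBA, h, mul_neg, neg_mul]
      have hA0 := (hN g0).1
      have hA1 := (hN g0).2
      have hA2 := hN11 g0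
      have hB0 := (hN g).1
      have hB1 := (hN g).2
      have hB2 := hN11 g
      rw [← hA] at hA0 hA1 hA2
      rw [← hB] at hB0 hB1 hB2
      have hcc2 : A * B = B * A := by
        rcases hcc with h | h
        · exact h
        · exfalso
          have h00 := congrArg (fun M : SL(2, ℝ) => M.1 0 0) h
          simp only [Matrix.SpecialLinearGroup.coe_mul, Matrix.SpecialLinearGroup.coe_neg,
            Matrix.neg_apply, Matrix.mul_apply, Fin.sum_univ_two, hA0, hA1, hB0, hB1, mul_zero,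
            add_zero] at h00
          have : a g0 * a g = 0 := by linarith
          exact (mul_ne_zero (ane g0) (ane g)) this
      have h01 := congrArg (fun M : SL(2, ℝ) => M.1 0 1) hcc2
      simp only [Matrix.SpecialLinearGroup.coe_mul, Matrix.mul_apply, Fin.sum_univ_two, hA0, hA1,
        hB0, hB1] at h01
      rw [div_mul_eq_mul_div, eq_div_iff hne]
      have e1 : A.1 1 1 = 1 / a g0 := by
        rw [eq_div_iff (ane g0)]; linarith
      have e2 : B.1 1 1 = 1 / a g := by
        rw [eq_div_iff (ane g)]; linarith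
      rw [e1, e2] at h01
      have h02 := congrArg (fun x => a g0 * a g * x) h01
      have := ane g0
      have := ane g
      field_simp at h02
      linarith
    · push Not at hex
      refine ⟨0, fun g => ?_⟩
      rw [hex g]
      have : (P⁻¹ * X.M 1 * P).1 0 1 = 0 := by
        rcases X.M_one with h | h
        · rw [h, mul_one, inv_mul_cancel]; simp
        · rw [h, mul_neg, mul_one, neg_mul, inv_mul_cancel]; simp
      rw [this]
      ring
  obtain ⟨τ, hτ⟩ := hτ
  obtain ⟨R, hR⟩ := X.cocpt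
  set W := 2 * Real.cosh R * nsq P.1 with hW
  have hW0 : 0 ≤ W := by
    rw [hW]
    have := irr_nsq_nonneg P.1
    have := (Real.cosh_pos R).le
    positivity
  set n : ℝ := |τ| * (W + 1) + W + 1 with hn
  obtain ⟨g, hg⟩ := hR ((P * irr_U n) • (I : ℍ))
  have e1 : dist (I : ℍ) (((P * irr_U n)⁻¹ * X.M g) • (I : ℍ)) ≤ R := by
    rw [← dist_smul_H (P * irr_U n), ← mul_smul, mul_inv_cancel_left]
    exact hg
  have e2 : nsq ((P * irr_U n)⁻¹ * X.M g).1 ≤ 2 * Real.cosh R := by
    rw [← irr_norm]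
    have : Real.cosh (dist (I : ℍ) (((P * irr_U n)⁻¹ * X.M g) • (I : ℍ))) ≤ Real.cosh R := by
      rw [Real.cosh_le_cosh, abs_of_nonneg dist_nonneg, abs_of_nonneg (dist_nonneg.trans e1)]
      exact e1
    linarith
  have e3 : nsq (((P * irr_U n)⁻¹ * X.M g) * P).1 ≤ W := by
    rw [Matrix.SpecialLinearGroup.coe_mul]
    refine (irr_nsq_mul _ _).trans ?_
    rw [hW]
    exact mul_le_mul_of_nonneg_right e2 (irr_nsq_nonneg _)
  have e4 : ((P * irr_U n)⁻¹ * X.M g) * P = (irr_U n)⁻¹ * (P⁻¹ * X.M g * P) := by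
    group
  rw [e4] at e3
  set B := P⁻¹ * X.M g * P with hB
  have hB0 := (hN g).1
  have hB1 := (hN g).2
  have hB2 := hN11 g
  have hB3 := hτ g
  rw [← hB] at hB0 hB1 hB2 hB3
  unfold nsq at e3
  rw [Matrix.SpecialLinearGroup.coe_mul, irr_inv] at e3
  simp only [irr_U, Matrix.mul_apply, Fin.sum_univ_two] at e3
  simp at e3
  rw [hB0, hB1] at e3
  have hs : (a g * (B.1 0 1 - n * B.1 1 1)) = τ * ((a g) ^ 2 - 1) - n := by
    linear_combination hB3 - n * hB2
  set e := B.1 0 1 - n * B.1 1 1 with he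
  have e5 : (a g) ^ 2 + e ^ 2 ≤ W := by
    have := sq_nonneg (B.1 1 1)
    have h6 : B.1 0 1 + -(n * B.1 1 1) = e := by rw [he]; ring
    rw [h6] at e3
    simp at e3
    linarith
  have e6 : -(a g * e) ≤ W := by nlinarith [sq_nonneg (a g + e), sq_nonneg (a g), sq_nonneg e]
  have e7 : τ * ((a g) ^ 2 - 1) ≤ |τ| * (W + 1) := by
    have h1 : |τ * ((a g) ^ 2 - 1)| ≤ |τ| * (W + 1) := by
      rw [abs_mul]
      refine mul_le_mul_of_nonneg_left ?_ (abs_nonneg _)
      rw [abs_le]
      constructor <;> nlinarith [sq_nonneg (a g), sq_nonneg e]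
    exact (le_abs_self _).trans h1
  linarith

end Pool.Agent.Helper12.GM
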