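import Pool.Agent.Helper12.GM.LibF

/-!
# Module CONN: connectors
-/

open scoped ENNReal UpperHalfPlane MatrixGroups Topology
open UpperHalfPlane Real Filter

namespace Pool.Agent.Helper12.GM

/-- pairs of matrices as functions -/
abbrev conn_E : Type := (Fin 2 → Fin 2 → ℝ) × (Fin 2 → Fin 2 → ℝ)

theorem conn_nsq_nonneg (A : Matrix (Fin 2) (Fin 2) ℝ) : 0 ≤ nsq A := by
  unfold nsq; positivity

theorem conn_nsq_eq_zero {A : Matrix (Fin 2) (Fin 2) ℝ} (h : nsq A = 0) (i j : Fin 2) :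
    A i j = 0 := by
  unfold nsq at h
  have h1 := sq_nonneg (A 0 0)
  have h2 := sq_nonneg (A 0 1)
  have h3 := sq_nonneg (A 1 0)
  have h4 := sq_nonneg (A 1 1)
  have e1 : A 0 0 = 0 := pow_eq_zero_iff (two_ne_zero) |>.mp (by linarith)
  have e2 : A 0 1 = 0 := pow_eq_zero_iff (two_ne_zero) |>.mp (by linarith)
  have e3 : A 1 0 = 0 := pow_eq_zero_iff (two_ne_zero) |>.mp (by linarith)
  have e4 : A 1 1 = 0 := pow_eq_zero_iff (two_ne_zero) |>.mp (by linarith)
  fin_cases i <;> fin_cases j <;> assumption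

theorem conn_nsq_smul (s : ℝ) (A : Matrix (Fin 2) (Fin 2) ℝ) : nsq (s • A) = s ^ 2 * nsq A := by
  unfold nsq
  simp only [Matrix.smul_apply, smul_eq_mul]
  ring

/-- the product, as a continuous function -/
theorem conn_cont (A : Matrix (Fin 2) (Fin 2) ℝ) :
    Continuous fun p : conn_E => nsq ((Matrix.of p.1) * A * (Matrix.of p.2)) := by
  unfold nsq
  simp only [Matrix.mul_apply, Fin.sum_univ_two, Matrix.of_apply]
  fun_prop

theorem conn_cont1 : Continuous fun p : conn_E => nsq (Matrix.of p.1) := by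
  unfold nsq
  simp only [Matrix.of_apply]
  fun_prop

theorem conn_cont2 : Continuous fun p : conn_E => nsq (Matrix.of p.2) := by
  unfold nsq
  simp only [Matrix.of_apply]
  fun_prop

theorem conn_bd {A : Fin 2 → Fin 2 → ℝ} (h : nsq (Matrix.of A) = 1) : ‖A‖ ≤ 1 := by
  rw [pi_norm_le_iff_of_nonneg zero_le_one]
  intro i
  rw [pi_norm_le_iff_of_nonneg zero_le_one]
  intro j
  rw [Real.norm_eq_abs, ← sq_le_one_iff_abs_le_one]
  unfold nsq at h
  simp only [Matrix.of_apply] at h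
  have h1 := sq_nonneg (A 0 0)
  have h2 := sq_nonneg (A 0 1)
  have h3 := sq_nonneg (A 1 0)
  have h4 := sq_nonneg (A 1 1)
  fin_cases i <;> fin_cases j <;> simp only [Fin.zero_eta, Fin.mk_one] <;> linarith

theorem conn_compact : IsCompact {p : conn_E | nsq (Matrix.of p.1) = 1 ∧ nsq (Matrix.of p.2) = 1} := by
  apply Metric.isCompact_of_isClosed_isBounded
  · exact (isClosed_eq conn_cont1 continuous_const).inter (isClosed_eq conn_cont2 continuous_const)
  · refine (Metric.isBounded_closedBall (x := (0 : conn_E)) (r := 1)).subset ?_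
    intro p hp
    rw [mem_closedBall_zero_iff, Prod.norm_def]
    exact max_le (conn_bd hp.1) (conn_bd hp.2)

/-- irreducibility: no common zero -/
theorem conn_ne (hI : ST_IRR) {Γ : Type} [Group Γ] (X : Fuchs Γ) (P Q : Matrix (Fin 2) (Fin 2) ℝ)
    (hP : nsq P ≠ 0) (hQ : nsq Q ≠ 0) : ∃ f, nsq (P * (X.M f).1 * Q) ≠ 0 := by
  by_contra hc
  push Not at hc
  -- nonzero row of P, nonzero column of Q
  have hrow : ∃ i, P i ≠ 0 := by
    by_contra h
    push Not at h
    apply hP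
    unfold nsq
    simp [h]
  have hcol : ∃ j, (fun i => Q i j) ≠ 0 := by
    by_contra h
    push Not at h
    apply hQ
    unfold nsq
    have e0 := congrFun (h 0)
    have e1 := congrFun (h 1)
    simp only [Pi.zero_apply] at e0 e1
    rw [e0, e0, e1, e1]
    norm_num
  obtain ⟨i, hi⟩ := hrow
  obtain ⟨j, hj⟩ := hcol
  set u : Fin 2 → ℝ := fun k => Q k j with hu
  have key : ∀ f, P i 0 * ((X.M f).1.mulVec u 0) + P i 1 * ((X.M f).1.mulVec u 1) = 0 := by
    intro f
    have h := conn_nsq_eq_zero (hc f) i j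
    rw [Matrix.mul_assoc, Matrix.mul_apply, Fin.sum_univ_two, Matrix.mul_apply, Matrix.mul_apply] at h
    simpa [Matrix.mulVec, dotProduct, hu] using h
  have key1 : P i 0 * u 0 + P i 1 * u 1 = 0 := by
    have h := key 1
    rcases X.M_one with h1 | h1
    · rw [h1, Matrix.SpecialLinearGroup.coe_one, Matrix.one_mulVec] at h
      exact h
    · rw [h1, Matrix.SpecialLinearGroup.coe_neg, Matrix.SpecialLinearGroup.coe_one,
        Matrix.neg_mulVec, Matrix.one_mulVec] at h
      simp only [Pi.neg_apply] at h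
      linarith
  apply hI X
  refine ⟨u, hj, fun g => ?_⟩
  have h2 := key g
  set w := (X.M g).1.mulVec u with hw
  -- w and u are both orthogonal to the row
  have hdet : w 0 * u 1 - w 1 * u 0 = 0 := by
    by_contra hne
    apply hi
    funext k
    fin_cases k
    · have : P i 0 * (w 0 * u 1 - w 1 * u 0) = 0 := by
        linear_combination u 1 * h2 - w 1 * key1
      exact (mul_eq_zero.mp this).resolve_right hne
    · have : P i 1 * (w 0 * u 1 - w 1 * u 0) = 0 := by
        linear_combination w 0 * key1 - u 0 * h2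
      exact (mul_eq_zero.mp this).resolve_right hne
  by_cases h0 : u 0 = 0
  · have h1 : u 1 ≠ 0 := by
      intro h1
      apply hj
      funext k
      fin_cases k
      · exact h0
      · exact h1
    refine ⟨w 1 / u 1, ?_⟩
    funext k
    fin_cases k
    · simp only [Fin.zero_eta, Pi.smul_apply, smul_eq_mul, h0, mul_zero]
      rw [h0, mul_zero, sub_zero] at hdet
      exact (mul_eq_zero.mp hdet).resolve_right h1
    · simp only [Fin.mk_one, Pi.smul_apply, smul_eq_mul]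
      rw [div_mul_cancel₀ _ h1]
  · refine ⟨w 0 / u 0, ?_⟩
    funext k
    fin_cases k
    · simp only [Fin.zero_eta, Pi.smul_apply, smul_eq_mul]
      rw [div_mul_cancel₀ _ h0]
    · simp only [Fin.mk_one, Pi.smul_apply, smul_eq_mul]
      rw [div_mul_eq_mul_div, eq_div_iff h0]
      linarith

/-- the function to minimise -/
noncomputable def conn_G (M : Fin 2 → Fin 2 → ℝ) (p : conn_E) : ℝ :=
  nsq ((Matrix.of p.1) * (Matrix.of M) * (Matrix.of p.2))

theorem conn_G_cont (M : Fin 2 → Fin 2 → ℝ) : Continuous (conn_G M) := conn_cont (Matrix.of M)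

theorem conn_G_nonneg (M : Fin 2 → Fin 2 → ℝ) (p : conn_E) : 0 ≤ conn_G M p := conn_nsq_nonneg _

/-- the compact set -/
def conn_K : Set conn_E := {p : conn_E | nsq (Matrix.of p.1) = 1 ∧ nsq (Matrix.of p.2) = 1}

theorem conn_K_ne : conn_K.Nonempty := by
  refine ⟨(fun i j => if i = 0 ∧ j = 0 then 1 else 0, fun i j => if i = 0 ∧ j = 0 then 1 else 0),
    ?_, ?_⟩ <;> simp [nsq]

/-- abstract compactness argument -/
theorem conn_abs {ι : Type} (M : ι → Fin 2 → Fin 2 → ℝ)
    (h : ∀ p ∈ conn_K, ∃ f, 0 < conn_G (M f) p) :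
    ∃ (F : Finset ι) (c : ℝ), 0 < c ∧ F.Nonempty ∧ ∀ p ∈ conn_K, ∃ f ∈ F, c ≤ conn_G (M f) p := by
  have hcover : conn_K ⊆ ⋃ f : ι, {p : conn_E | 0 < conn_G (M f) p} := by
    intro p hp
    rw [Set.mem_iUnion]
    exact h p hp
  have hopen : ∀ f, IsOpen {p : conn_E | 0 < conn_G (M f) p} := fun f =>
    isOpen_lt continuous_const (conn_G_cont (M f))
  obtain ⟨F, hF⟩ := conn_compact.elim_finite_subcover _ hopen hcover
  have hcont : Continuous fun p : conn_E => ∑ f ∈ F, conn_G (M f) p :=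
    continuous_finsetSum _ fun f _ => conn_G_cont (M f)
  obtain ⟨p0, hp0, hmin⟩ := conn_compact.exists_isMinOn conn_K_ne hcont.continuousOn
  rw [isMinOn_iff] at hmin
  have hmpos : 0 < ∑ f ∈ F, conn_G (M f) p0 := by
    have h1 := hF hp0
    rw [Set.mem_iUnion₂] at h1
    obtain ⟨f, hf, h2⟩ := h1
    exact Finset.sum_pos' (fun g _ => conn_G_nonneg _ _) ⟨f, hf, h2⟩
  have hFne : F.Nonempty := by
    rw [Finset.nonempty_iff_ne_empty]
    intro h
    rw [h, Finset.sum_empty] at hmpos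
    exact lt_irrefl _ hmpos
  have hcard : (0 : ℝ) < F.card := by exact_mod_cast hFne.card_pos
  refine ⟨F, (∑ f ∈ F, conn_G (M f) p0) / F.card, by positivity, hFne, fun p hp => ?_⟩
  have h2 : ∑ f ∈ F, (∑ f ∈ F, conn_G (M f) p0) / F.card ≤ ∑ f ∈ F, conn_G (M f) p := by
    rw [Finset.sum_const, nsmul_eq_mul, mul_div_cancel₀ _ hcard.ne']
    exact hmin p hp
  exact Finset.exists_le_of_sum_le hFne h2

theorem conn_scale (P : Matrix (Fin 2) (Fin 2) ℝ) (hP : nsq P ≠ 0) :
    ∃ s : ℝ, s ^ 2 * nsq P = 1 ∧ nsq (s • P) = 1 := by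
  have hP' : 0 < nsq P := lt_of_le_of_ne (conn_nsq_nonneg _) (Ne.symm hP)
  have hs2 : (√(nsq P))⁻¹ ^ 2 * nsq P = 1 := by
    rw [inv_pow, Real.sq_sqrt hP'.le, inv_mul_cancel₀ hP]
  exact ⟨_, hs2, by rw [conn_nsq_smul, hs2]⟩

theorem conn_fin (x y a b s t : ℝ) (hs : s * a = 1) (ht : t * b = 1) (ha : 0 ≤ a) (hb : 0 ≤ b)
    (h : x ≤ s * t * y) : x * (a * b) ≤ y := by
  have h6 := mul_le_mul_of_nonneg_right h (mul_nonneg ha hb)
  calc x * (a * b) ≤ s * t * y * (a * b) := h6
    _ = (s * a) * (t * b) * y := by ring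
    _ = y := by rw [hs, ht]; ring

theorem st_CONN (hI : ST_IRR) : ST_CONN := by
  intro Γ _ X
  obtain ⟨F, c, hc, hFne, hF⟩ := conn_abs (fun f : Γ => Matrix.of.symm (X.M f).1) (by
    intro p hp
    obtain ⟨f, hf⟩ := conn_ne hI X (Matrix.of p.1) (Matrix.of p.2) (by rw [hp.1]; norm_num)
      (by rw [hp.2]; norm_num)
    refine ⟨f, lt_of_le_of_ne (conn_nsq_nonneg _) (Ne.symm ?_)⟩
    unfold conn_G
    simp only [Equiv.apply_symm_apply]
    exact hf)
  refine ⟨F, c, hc, fun P Q => ?_⟩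
  by_cases hP : nsq P = 0
  · obtain ⟨f, hf⟩ := hFne
    exact ⟨f, hf, by rw [hP, zero_mul, mul_zero]; exact conn_nsq_nonneg _⟩
  by_cases hQ : nsq Q = 0
  · obtain ⟨f, hf⟩ := hFne
    exact ⟨f, hf, by rw [hQ, mul_zero, mul_zero]; exact conn_nsq_nonneg _⟩
  obtain ⟨s, hs2, hs1⟩ := conn_scale P hP
  obtain ⟨t, ht2, ht1⟩ := conn_scale Q hQ
  obtain ⟨f, hf, h3⟩ := hF (Matrix.of.symm (s • P), Matrix.of.symm (t • Q)) (by
    constructor
    · simp only [Equiv.apply_symm_apply]; exact hs1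
    · simp only [Equiv.apply_symm_apply]; exact ht1)
  refine ⟨f, hf, ?_⟩
  unfold conn_G at h3
  simp only [Equiv.apply_symm_apply] at h3
  have h4 : nsq ((s • P) * (X.M f).1 * (t • Q)) = (s ^ 2 * t ^ 2) * nsq (P * (X.M f).1 * Q) := by
    have : (s • P) * (X.M f).1 * (t • Q) = (s * t) • (P * (X.M f).1 * Q) := by
      rw [Matrix.smul_mul, Matrix.smul_mul, Matrix.mul_smul, smul_smul]
    rw [this, conn_nsq_smul]
    ring
  rw [h4] at h3
  exact conn_fin c _ _ _ _ _ hs2 ht2 (conn_nsq_nonneg _) (conn_nsq_nonneg _) h3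

end Pool.Agent.Helper12.GM
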